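import Mathlib
import Pool.Agent.Q52.Cond.Defs

set_option autoImplicit false

/-!
# Ideals of fiber type
-/

namespace Q52.Fib

open MvPolynomial Q52.Cond

variable {K : Type*} [Field K] {n m : ℕ}

/-- The map `φ' : K[y₁, …, y_m] → K[f₁ t, …, f_m t] ⊆ R[t]`, `y_j ↦ f_j t`, where
`R = K[x₁, …, x_n]`. -/
noncomputable def fiberMap (f : Fin m → MvPolynomial (Fin n) K) :
    MvPolynomial (Fin m) K →ₐ[K] Polynomial (MvPolynomial (Fin n) K) :=
  aeval fun j => Polynomial.C (f j) * Polynomial.X

/-- The ideal `(f₁, …, f_m)` is of fiber type: `J = L + H T`, where `J` is the kernel of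
`φ : T = R[y₁, …, y_m] → R[t]`, `L` is generated by the linear relations, and `H` is the kernel of
`φ'`. -/
def IsFiberType (f : Fin m → MvPolynomial (Fin n) K) : Prop :=
  RingHom.ker (reesMap f) =
    linearIdeal f ⊔ Ideal.map (MvPolynomial.map (C : K →+* MvPolynomial (Fin n) K))
      (RingHom.ker (fiberMap f))

/-- The ideal is generated by squarefree monomials. -/
def IsSquarefreeMonomialIdeal (I : Ideal (MvPolynomial (Fin n) K)) : Prop :=
  ∃ S : Set (Finset (Fin n)), I = Ideal.span ((fun s : Finset (Fin n) => ∏ i ∈ s, X i) '' S)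

end Q52.Fib
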