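import Mathlib
import Pool.Agent.Q52.Cond.Defs
import Pool.Agent.Q52.Fib.Defs

set_option autoImplicit false

/-!
# Monomials and the basic congruences
-/

namespace Q52.Fib

open MvPolynomial Q52.Cond

variable {K : Type*} [Field K]

/-- The generators
`x₁x₂, x₃x₄x₅, x₁x₃x₄, x₂x₅, x₃x₅x₆, x₁x₄x₆`. -/
noncomputable def gen (K : Type*) [Field K] : Fin 6 → MvPolynomial (Fin 6) K :=
  ![X 0 * X 1, X 2 * X 3 * X 4, X 0 * X 2 * X 3, X 1 * X 4, X 2 * X 4 * X 5, X 0 * X 3 * X 5]

/-- The exponents of the generators. -/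
def E : Fin 6 → Fin 6 → ℕ :=
  ![![1, 1, 0, 0, 0, 0], ![0, 0, 1, 1, 1, 0], ![1, 0, 1, 1, 0, 0], ![0, 1, 0, 0, 1, 0],
    ![0, 0, 1, 0, 1, 1], ![1, 0, 0, 1, 0, 1]]

/-- The monomial with exponents `u` in the variables `x`. -/
noncomputable def xm (K : Type*) [Field K] (u : Fin 6 → ℕ) : MvPolynomial (Fin 6) K :=
  ∏ v, X v ^ u v

/-- The monomial with exponents `α` in the variables `y`. -/
noncomputable def ym (K : Type*) [Field K] (α : Fin 6 → ℕ) :
    MvPolynomial (Fin 6) (MvPolynomial (Fin 6) K) :=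
  ∏ i, X i ^ α i

/-- The monomial with exponents `u` and `α`. -/
noncomputable def mon (K : Type*) [Field K] (u α : Fin 6 → ℕ) :
    MvPolynomial (Fin 6) (MvPolynomial (Fin 6) K) :=
  C (xm K u) * ym K α

theorem xm_add (u w : Fin 6 → ℕ) : xm K (u + w) = xm K u * xm K w := by
  simp only [xm, Pi.add_apply, pow_add, Finset.prod_mul_distrib]

theorem ym_add (u w : Fin 6 → ℕ) : ym K (u + w) = ym K u * ym K w := by
  simp only [ym, Pi.add_apply, pow_add, Finset.prod_mul_distrib]

theorem ym_single (i : Fin 6) : ym K (Pi.single i 1) = X i := by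
  rw [ym, Finset.prod_eq_single i]
  · simp
  · intro b _ hb
    simp [hb]
  · intro h; exact absurd (Finset.mem_univ _) h

theorem gen_eq (i : Fin 6) : gen K i = xm K (E i) := by
  simp only [xm, Fin.prod_univ_six]
  fin_cases i <;> simp [gen, E]

/-- The quadratic relation. -/
noncomputable def hh (K : Type*) [Field K] : MvPolynomial (Fin 6) (MvPolynomial (Fin 6) K) :=
  X 0 * X 1 - X 2 * X 3

/-- The ideal generated by the linear relations and the quadratic relation. -/
noncomputable def II (K : Type*) [Field K] :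
    Ideal (MvPolynomial (Fin 6) (MvPolynomial (Fin 6) K)) :=
  linearIdeal (gen K) ⊔ Ideal.span {hh K}

theorem linear_mem {u u' : Fin 6 → ℕ} {i j : Fin 6} (h : u + E i = u' + E j) :
    C (xm K u) * X i - C (xm K u') * X j ∈ linearIdeal (gen K) := by
  refine Ideal.subset_span ⟨fun k => (if k = i then xm K u else 0) - (if k = j then xm K u' else 0),
    ?_, ?_⟩
  · simp only [sub_mul, Finset.sum_sub_distrib, ite_mul, zero_mul, Finset.sum_ite_eq',
      Finset.mem_univ, if_true]
    rw [gen_eq, gen_eq, ← xm_add, ← xm_add, h, sub_self]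
  · simp only [map_sub, sub_mul, Finset.sum_sub_distrib]
    congr 1
    · rw [Finset.sum_eq_single i] <;> simp +contextual
    · rw [Finset.sum_eq_single j] <;> simp +contextual

theorem exch {u u' α : Fin 6 → ℕ} {i j : Fin 6} (h : u + E i = u' + E j) :
    mon K u (α + Pi.single i 1) - mon K u' (α + Pi.single j 1) ∈ II K := by
  have h1 := Ideal.mul_mem_left _ (ym K α) (linear_mem (K := K) h)
  have h2 : mon K u (α + Pi.single i 1) - mon K u' (α + Pi.single j 1) =
      ym K α * (C (xm K u) * X i - C (xm K u') * X j) := by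
    simp only [mon, ym_add, ym_single]; ring
  rw [h2]
  exact Ideal.mem_sup_left h1

theorem quad {u α : Fin 6 → ℕ} :
    mon K u (α + Pi.single 0 1 + Pi.single 1 1) - mon K u (α + Pi.single 2 1 + Pi.single 3 1)
      ∈ II K := by
  have h1 := Ideal.mul_mem_left _ (C (xm K u) * ym K α)
    (Ideal.subset_span (Set.mem_singleton (hh K)))
  have h2 : mon K u (α + Pi.single 0 1 + Pi.single 1 1) -
      mon K u (α + Pi.single 2 1 + Pi.single 3 1) = C (xm K u) * ym K α * hh K := by
    simp only [mon, ym_add, ym_single, hh]; ring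
  rw [h2]
  exact Ideal.mem_sup_right h1

theorem common {u w α β : Fin 6 → ℕ} (i : Fin 6) (h : mon K u α - mon K w β ∈ II K) :
    mon K u (α + Pi.single i 1) - mon K w (β + Pi.single i 1) ∈ II K := by
  have h1 := Ideal.mul_mem_left _ (X i) h
  have h2 : mon K u (α + Pi.single i 1) - mon K w (β + Pi.single i 1) =
      X i * (mon K u α - mon K w β) := by
    simp only [mon, ym_add, ym_single]; ring
  rw [h2]
  exact h1

theorem trans' {a b c : MvPolynomial (Fin 6) (MvPolynomial (Fin 6) K)} (h : a - b ∈ II K)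
    (h' : b - c ∈ II K) : a - c ∈ II K := by
  have := add_mem h h'
  rwa [sub_add_sub_cancel] at this

theorem symm' {a b : MvPolynomial (Fin 6) (MvPolynomial (Fin 6) K)} (h : a - b ∈ II K) :
    b - a ∈ II K := by
  rw [← neg_sub]
  exact neg_mem h

end Q52.Fib
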