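import Mathlib

set_option autoImplicit false

/-!
# The combinatorial case analysis for the fiber type property

`s` and `t` are the exponents of the six generators `a = x₁x₂`, `b = x₃x₄x₅`, `c = x₁x₃x₄`,
`d = x₂x₅`, `p = x₃x₅x₆`, `q = x₁x₄x₆` in two monomials of the same degree with disjoint supports
and with monomial coefficients (exponents `u`, `w`) which make the products equal. If none of the
listed moves applies, the degree is zero. There are two symmetries: the exchange of the two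
monomials, and `a ↔ d`, `b ↔ c`, `p ↔ q`, `1 ↔ 5`, `3 ↔ 4`.
-/

namespace Q52.Fib

variable {u1 u2 u3 u4 u5 u6 w1 w2 w3 w4 w5 w6 sa sb sc sd sp sq ta tb tc td tp tq : ℕ}

/-- The case where `u2 > w2` and `a` occurs in the second monomial. -/
theorem caseA (e1 : u1 + sa + sc + sq = w1 + ta + tc + tq) (e2 : u2 + sa + sd = w2 + ta + td)
    (e3 : u3 + sb + sc + sp = w3 + tb + tc + tp) (e4 : u4 + sb + sc + sq = w4 + tb + tc + tq)
    (e6 : u6 + sp + sq = w6 + tp + tq)
    (hs : sa + sb + sc + sd + sp + sq = ta + tb + tc + td + tp + tq)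
    (za : sa = 0) (zb : sb = 0 ∨ tb = 0) (zc : sc = 0 ∨ tc = 0) (zd : sd = 0 ∨ td = 0)
    (zp : sp = 0 ∨ tp = 0) (zq : sq = 0 ∨ tq = 0)
    (h2 : w2 < u2) (ha : 1 ≤ ta)
    (mca : 1 ≤ sc → 1 ≤ ta → u2 = 0) (mqa : 1 ≤ sq → 1 ≤ ta → u2 = 0)
    (mda : 1 ≤ sd → 1 ≤ ta → u1 = 0) (mbd : 1 ≤ sb → 1 ≤ td → u2 = 0)
    (mpd : 1 ≤ sp → 1 ≤ td → u2 = 0) (mbc : 1 ≤ sb → 1 ≤ tc → u1 = 0)
    (mpc : 1 ≤ sp → 1 ≤ tc → u1 = 0 ∨ u4 = 0) (mbq : 1 ≤ sb → 1 ≤ tq → u1 = 0 ∨ u6 = 0)
    (nqb : 1 ≤ tq → 1 ≤ sb → w3 = 0 ∨ w5 = 0) (mpq : 1 ≤ sp → 1 ≤ tq → u1 = 0 ∨ u4 = 0)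
    (mba : 1 ≤ sb → 1 ≤ ta → u1 = 0 ∨ u2 = 0) (mpa : 1 ≤ sp → 1 ≤ ta → u1 = 0 ∨ u2 = 0)
    (e5 : u5 + sb + sd + sp = w5 + tb + td + tp) : False := by
  have c0 : sc = 0 := by
    by_contra h
    have := mca (by omega) ha
    omega
  have q0 : sq = 0 := by
    by_contra h
    have := mqa (by omega) ha
    omega
  have h1 : w1 < u1 := by omega
  have d0 : sd = 0 := by
    by_contra h
    have := mda (by omega) ha
    omega
  have hd : td = 0 := by
    by_contra h
    have hb : sb = 0 := by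
      by_contra h'
      have := mbd (by omega) (by omega)
      omega
    have hp : sp = 0 := by
      by_contra h'
      have := mpd (by omega) (by omega)
      omega
    omega
  have hc : tc = 0 := by
    by_contra h
    have hb : sb = 0 := by
      by_contra h'
      have := mbc (by omega) (by omega)
      omega
    have hp : 1 ≤ sp := by omega
    have := mpc hp (by omega)
    omega
  have hq : tq = 0 := by
    by_contra h
    have hb : sb = 0 := by
      by_contra h'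
      have h3 := mbq (by omega) (by omega)
      have h4 := nqb (by omega) (by omega)
      omega
    have hp : 1 ≤ sp := by omega
    have := mpq hp (by omega)
    omega
  have hb : sb = 0 := by
    by_contra h
    have := mba (by omega) ha
    omega
  have hp : 1 ≤ sp := by omega
  have := mpa hp ha
  omega

/-- The case where `a` and `d` do not occur: `c` does not occur in the second monomial. -/
theorem caseB (e1 : u1 + sa + sc + sq = w1 + ta + tc + tq)
    (e3 : u3 + sb + sc + sp = w3 + tb + tc + tp) (e4 : u4 + sb + sc + sq = w4 + tb + tc + tq)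
    (hs : sa + sb + sc + sd + sp + sq = ta + tb + tc + td + tp + tq)
    (a0 : sa = 0) (a0' : ta = 0) (d0 : sd = 0) (d0' : td = 0)
    (zb : sb = 0 ∨ tb = 0) (zc : sc = 0 ∨ tc = 0)
    (zp : sp = 0 ∨ tp = 0) (zq : sq = 0 ∨ tq = 0)
    (mqc : 1 ≤ sq → 1 ≤ tc → u3 = 0) (mbc : 1 ≤ sb → 1 ≤ tc → u1 = 0)
    (mpc : 1 ≤ sp → 1 ≤ tc → u1 = 0 ∨ u4 = 0) : tc = 0 := by
  by_contra h
  have hq : sq = 0 := by
    by_contra h'
    have := mqc (by omega) (by omega)
    omega
  have hb : sb = 0 := by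
    by_contra h'
    have := mbc (by omega) (by omega)
    omega
  have hp : 1 ≤ sp := by omega
  have := mpc hp (by omega)
  omega

/-- The case where only `p` and `q` occur. -/
theorem caseB' (e1 : u1 + sa + sc + sq = w1 + ta + tc + tq)
    (e4 : u4 + sb + sc + sq = w4 + tb + tc + tq)
    (hs : sa + sb + sc + sd + sp + sq = ta + tb + tc + td + tp + tq)
    (a0 : sa = 0) (a0' : ta = 0) (d0 : sd = 0) (d0' : td = 0)
    (b0 : sb = 0) (b0' : tb = 0) (c0 : sc = 0) (c0' : tc = 0)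
    (zp : sp = 0 ∨ tp = 0) (zq : sq = 0 ∨ tq = 0)
    (mpq : 1 ≤ sp → 1 ≤ tq → u1 = 0 ∨ u4 = 0) : sp = 0 := by
  by_contra h
  have hq : 1 ≤ tq := by omega
  have := mpq (by omega) hq
  omega

/-- The case `u2 = w2` where `a` occurs in the second and `d` in the first monomial. -/
theorem caseC (e1 : u1 + sa + sc + sq = w1 + ta + tc + tq) (e2 : u2 + sa + sd = w2 + ta + td)
    (e3 : u3 + sb + sc + sp = w3 + tb + tc + tp) (e4 : u4 + sb + sc + sq = w4 + tb + tc + tq)
    (hs : sa + sb + sc + sd + sp + sq = ta + tb + tc + td + tp + tq)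
    (za : sa = 0) (zd : td = 0) (h2 : w2 = u2) (ha : 1 ≤ ta)
    (zb : sb = 0 ∨ tb = 0) (zc : sc = 0 ∨ tc = 0) (zp : sp = 0 ∨ tp = 0) (zq : sq = 0 ∨ tq = 0)
    (mda : 1 ≤ sd → 1 ≤ ta → u1 = 0) (mqc : 1 ≤ sq → 1 ≤ tc → u3 = 0)
    (npb : 1 ≤ tp → 1 ≤ sb → w4 = 0) (nqc : 1 ≤ tq → 1 ≤ sc → w3 = 0)
    (mpb : 1 ≤ sp → 1 ≤ tb → u4 = 0)
    (k1 : 1 ≤ sc → 1 ≤ sd → ta = 0) (k4 : 1 ≤ ta → 1 ≤ tb → sd = 0)
    (k5 : 1 ≤ sq → 1 ≤ sd → 1 ≤ u3 → ta = 0) : False := by
  have hd : 1 ≤ sd := by omega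
  have h1 : u1 = 0 := mda hd ha
  have hc : tc = 0 := by
    by_contra h
    have := mqc (by omega) (by omega)
    omega
  have hb : sb = 0 := by
    by_contra h
    have := npb (by omega) (by omega)
    omega
  have hq : tq = 0 := by
    by_contra h
    have := nqc (by omega) (by omega)
    omega
  have hp : sp = 0 := by
    by_contra h
    have := mpb (by omega) (by omega)
    omega
  have hc' : sc = 0 := by
    by_contra h
    have := k1 (by omega) hd
    omega
  have hb' : tb = 0 := by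
    by_contra h
    have := k4 ha (by omega)
    omega
  have := k5 (by omega) hd (by omega)
  omega

end Q52.Fib
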