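import Mathlib
import Pool.Agent.Q52.Fib.Bin
import Pool.Agent.Q52.Fib.Moves

set_option autoImplicit false

/-!
# All binomial relations lie in the ideal generated by the linear and the quadratic one
-/

namespace Q52.Fib

open MvPolynomial Q52.Cond

variable {K : Type*} [Field K]

/-- Delete one `i`. -/
def del (α : Fin 6 → ℕ) (i : Fin 6) : Fin 6 → ℕ := Function.update α i (α i - 1)

theorem del_add {α : Fin 6 → ℕ} {i : Fin 6} (h : 1 ≤ α i) : del α i + Pi.single i 1 = α := by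
  funext k
  by_cases hk : k = i
  · subst hk
    simp [del]; omega
  · simp [del, hk]

theorem sum_del {α : Fin 6 → ℕ} {i : Fin 6} (h : 1 ≤ α i) :
    ∑ k, del α i k + 1 = ∑ k, α k := by
  conv_rhs => rw [← del_add h]
  simp [Finset.sum_add_distrib]

theorem wsum_add (α : Fin 6 → ℕ) (i v : Fin 6) :
    ∑ k, (α + Pi.single i 1 : Fin 6 → ℕ) k * E k v = ∑ k, α k * E k v + E i v := by
  simp only [Pi.add_apply, add_mul, Finset.sum_add_distrib]
  congr 1
  rw [Finset.sum_eq_single i]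
  · simp
  · intro b _ hb
    simp [hb]
  · intro h; exact absurd (Finset.mem_univ _) h

theorem wsum_del {α : Fin 6 → ℕ} {i : Fin 6} (h : 1 ≤ α i) (v : Fin 6) :
    ∑ k, del α i k * E k v + E i v = ∑ k, α k * E k v := by
  rw [← wsum_add, del_add h]

theorem exch' {u α : Fin 6 → ℕ} {i j : Fin 6} (hi : 1 ≤ α i) (hu : ∀ v, E j v ≤ u v + E i v) :
    mon K u α - mon K (fun v => u v + E i v - E j v) (del α i + Pi.single j 1) ∈ II K := by
  have h1 : u + E i = (fun v => u v + E i v - E j v) + E j := by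
    funext v
    have := hu v
    simp only [Pi.add_apply]
    omega
  have h2 := exch (K := K) (α := del α i) h1
  rwa [del_add hi] at h2

/-- The statement in degree `d`. -/
def Bin (K : Type*) [Field K] (d : ℕ) : Prop :=
  ∀ u α w β : Fin 6 → ℕ, ∑ i, α i = d → ∑ i, β i = d →
    (∀ v, u v + ∑ i, α i * E i v = w v + ∑ i, β i * E i v) → mon K u α - mon K w β ∈ II K

theorem share {d : ℕ} (ih : Bin K d) {u α w β : Fin 6 → ℕ} (hα : ∑ i, α i = d + 1)
    (hβ : ∑ i, β i = d + 1) (h : ∀ v, u v + ∑ i, α i * E i v = w v + ∑ i, β i * E i v)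
    (i : Fin 6) (hi : 1 ≤ α i) (hi' : 1 ≤ β i) : mon K u α - mon K w β ∈ II K := by
  rw [← del_add hi, ← del_add hi']
  refine common i (ih _ _ _ _ ?_ ?_ ?_)
  · have := sum_del hi; omega
  · have := sum_del hi'; omega
  · intro v
    have h1 := wsum_del hi v
    have h2 := wsum_del hi' v
    have h3 := h v
    omega

theorem move {d : ℕ} (ih : Bin K d) {u α w β : Fin 6 → ℕ} (hα : ∑ i, α i = d + 1)
    (hβ : ∑ i, β i = d + 1) (h : ∀ v, u v + ∑ i, α i * E i v = w v + ∑ i, β i * E i v)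
    (i j : Fin 6) (hi : 1 ≤ α i) (hj : 1 ≤ β j) (hu : ∀ v, E j v ≤ u v + E i v) :
    mon K u α - mon K w β ∈ II K := by
  have hex : mon K u α - mon K (fun v => u v + E i v - E j v) (del α i + Pi.single j 1) ∈ II K :=
    exch' hi hu
  refine trans' hex (share ih ?_ hβ ?_ j ?_ hj)
  · have := sum_del hi
    simp [Finset.sum_add_distrib]; omega
  · intro v
    rw [wsum_add]
    have h1 := wsum_del hi v
    have h2 := hu v
    have h3 := h v
    omega
  · simp

theorem E_rel (v : Fin 6) : E 0 v + E 1 v = E 2 v + E 3 v := by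
  fin_cases v <;> rfl

theorem move_h1 {d : ℕ} (ih : Bin K d) {u α w β : Fin 6 → ℕ} (hα : ∑ i, α i = d + 1)
    (hβ : ∑ i, β i = d + 1) (h : ∀ v, u v + ∑ i, α i * E i v = w v + ∑ i, β i * E i v)
    (h2 : 1 ≤ α 2) (h3 : 1 ≤ α 3) (h0 : 1 ≤ β 0) : mon K u α - mon K w β ∈ II K := by
  have h2' : 1 ≤ del α 3 2 := by simpa [del] using h2
  have e1 : del (del α 3) 2 + Pi.single 2 1 + Pi.single 3 1 = α := by
    rw [del_add h2', del_add h3]
  have hex := symm' (quad (K := K) (u := u) (α := del (del α 3) 2))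
  rw [e1] at hex
  refine trans' hex (share ih ?_ hβ ?_ 0 ?_ h0)
  · have a1 := sum_del h2'
    have a2 := sum_del h3
    simp [Finset.sum_add_distrib]; omega
  · intro v
    rw [wsum_add, wsum_add]
    have a1 := wsum_del h2' v
    have a2 := wsum_del h3 v
    have a3 := h v
    have a4 := E_rel v
    omega
  · simp

theorem move_h2 {d : ℕ} (ih : Bin K d) {u α w β : Fin 6 → ℕ} (hα : ∑ i, α i = d + 1)
    (hβ : ∑ i, β i = d + 1) (h : ∀ v, u v + ∑ i, α i * E i v = w v + ∑ i, β i * E i v)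
    (h0 : 1 ≤ α 0) (h1 : 1 ≤ α 1) (h3 : 1 ≤ β 3) : mon K u α - mon K w β ∈ II K := by
  have h0' : 1 ≤ del α 1 0 := by simpa [del] using h0
  have e1 : del (del α 1) 0 + Pi.single 0 1 + Pi.single 1 1 = α := by
    rw [del_add h0', del_add h1]
  have hex := quad (K := K) (u := u) (α := del (del α 1) 0)
  rw [e1] at hex
  refine trans' hex (share ih ?_ hβ ?_ 3 ?_ h3)
  · have a1 := sum_del h0'
    have a2 := sum_del h1
    simp [Finset.sum_add_distrib]; omega
  · intro v
    rw [wsum_add, wsum_add]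
    have a1 := wsum_del h0' v
    have a2 := wsum_del h1 v
    have a3 := h v
    have a4 := E_rel v
    omega
  · simp

theorem move_h3 {d : ℕ} (ih : Bin K d) {u α w β : Fin 6 → ℕ} (hα : ∑ i, α i = d + 1)
    (hβ : ∑ i, β i = d + 1) (h : ∀ v, u v + ∑ i, α i * E i v = w v + ∑ i, β i * E i v)
    (h5 : 1 ≤ α 5) (h3 : 1 ≤ α 3) (hu : 1 ≤ u 2) (h0 : 1 ≤ β 0) :
    mon K u α - mon K w β ∈ II K := by
  have hu' : ∀ v, E 2 v ≤ u v + E 5 v := by
    intro v
    fin_cases v <;> simp [E] <;> omega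
  have hex : mon K u α - mon K (fun v => u v + E 5 v - E 2 v) (del α 5 + Pi.single 2 1) ∈ II K :=
    exch' h5 hu'
  refine trans' hex (move_h1 ih ?_ hβ ?_ ?_ ?_ h0)
  · have := sum_del h5
    simp [Finset.sum_add_distrib]; omega
  · intro v
    rw [wsum_add]
    have h1 := wsum_del h5 v
    have h2 := hu' v
    have h3 := h v
    omega
  · simp
  · simpa [del] using h3

/-- No move applies. -/
structure St (u s w t : Fin 6 → ℕ) : Prop where
  h : ∀ v, u v + ∑ i, s i * E i v = w v + ∑ i, t i * E i v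
  hs : ∑ i, s i = ∑ i, t i
  z : ∀ i, s i = 0 ∨ t i = 0
  m : ∀ i j, 1 ≤ s i → 1 ≤ t j → ¬ ∀ v, E j v ≤ u v + E i v
  n : ∀ i j, 1 ≤ t i → 1 ≤ s j → ¬ ∀ v, E j v ≤ w v + E i v
  k1 : 1 ≤ s 2 → 1 ≤ s 3 → t 0 = 0
  k2 : 1 ≤ s 0 → 1 ≤ s 1 → t 3 = 0
  k3 : 1 ≤ s 5 → 1 ≤ s 3 → 1 ≤ u 2 → t 0 = 0
  l1 : 1 ≤ t 2 → 1 ≤ t 3 → s 0 = 0
  l2 : 1 ≤ t 0 → 1 ≤ t 1 → s 3 = 0
  l3 : 1 ≤ t 5 → 1 ≤ t 3 → 1 ≤ w 2 → s 0 = 0

variable {u s w t : Fin 6 → ℕ}

/-- No move applies (without the last two kinds of moves). -/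
structure St0 (u s w t : Fin 6 → ℕ) : Prop where
  h : ∀ v, u v + ∑ i, s i * E i v = w v + ∑ i, t i * E i v
  hs : ∑ i, s i = ∑ i, t i
  z : ∀ i, s i = 0 ∨ t i = 0
  m : ∀ i j, 1 ≤ s i → 1 ≤ t j → ¬ ∀ v, E j v ≤ u v + E i v
  n : ∀ i j, 1 ≤ t i → 1 ≤ s j → ¬ ∀ v, E j v ≤ w v + E i v

theorem St.swap (a : St u s w t) : St w t u s :=
  ⟨fun v => (a.h v).symm, a.hs.symm, fun i => (a.z i).symm, a.n, a.m, a.l1, a.l2, a.l3, a.k1,
    a.k2, a.k3⟩

theorem St0.swap (a : St0 u s w t) : St0 w t u s :=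
  ⟨fun v => (a.h v).symm, a.hs.symm, fun i => (a.z i).symm, a.n, a.m⟩

theorem St.to0 (a : St u s w t) : St0 u s w t := ⟨a.h, a.hs, a.z, a.m, a.n⟩

/-- The exchange of the variables. -/
def sg : Fin 6 → Fin 6 := ![4, 1, 3, 2, 0, 5]

/-- The exchange of the generators. -/
def ta : Fin 6 → Fin 6 := ![3, 2, 1, 0, 5, 4]

theorem E_ta (i v : Fin 6) : E (ta i) (sg v) = E i v := by
  revert i v; decide

theorem sg_sg (v : Fin 6) : sg (sg v) = v := by
  revert v; decide

theorem ta_ta (v : Fin 6) : ta (ta v) = v := by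
  revert v; decide

theorem St0.sig (a : St0 u s w t) :
    St0 (fun v => u (sg v)) (fun i => s (ta i)) (fun v => w (sg v)) (fun i => t (ta i)) where
  h v := by
    have h1 := a.h (sg v)
    have h2 : ∀ f : Fin 6 → ℕ, ∑ i, f (ta i) * E i v = ∑ i, f i * E i (sg v) := by
      intro f
      rw [← Equiv.sum_comp (⟨ta, ta, ta_ta, ta_ta⟩ : Fin 6 ≃ Fin 6)]
      refine Finset.sum_congr rfl fun i _ => ?_
      have h3 := E_ta i (sg v)
      rw [sg_sg] at h3
      simp only [Equiv.coe_fn_mk, ta_ta, h3]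
    rw [h2, h2]
    exact h1
  hs := by
    have h2 : ∀ f : Fin 6 → ℕ, ∑ i, f (ta i) = ∑ i, f i := by
      intro f
      exact Equiv.sum_comp (⟨ta, ta, ta_ta, ta_ta⟩ : Fin 6 ≃ Fin 6) f
    rw [h2, h2]
    exact a.hs
  z i := a.z _
  m i j hi hj hu := by
    refine a.m (ta i) (ta j) hi hj fun v => ?_
    have := hu (sg v)
    simp only [sg_sg] at this
    rw [← E_ta, ← E_ta i, sg_sg] at this
    exact this
  n i j hi hj hu := by
    refine a.n (ta i) (ta j) hi hj fun v => ?_
    have := hu (sg v)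
    simp only [sg_sg] at this
    rw [← E_ta, ← E_ta i, sg_sg] at this
    exact this

theorem St0.e (a : St0 u s w t) : (u 0 + s 0 + s 2 + s 5 = w 0 + t 0 + t 2 + t 5) ∧
    (u 1 + s 0 + s 3 = w 1 + t 0 + t 3) ∧
    (u 2 + s 1 + s 2 + s 4 = w 2 + t 1 + t 2 + t 4) ∧
    (u 3 + s 1 + s 2 + s 5 = w 3 + t 1 + t 2 + t 5) ∧
    (u 4 + s 1 + s 3 + s 4 = w 4 + t 1 + t 3 + t 4) ∧
    (u 5 + s 4 + s 5 = w 5 + t 4 + t 5) ∧
    (s 0 + s 1 + s 2 + s 3 + s 4 + s 5 = t 0 + t 1 + t 2 + t 3 + t 4 + t 5) := by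
  have q0 := a.h 0
  have q1 := a.h 1
  have q2 := a.h 2
  have q3 := a.h 3
  have q4 := a.h 4
  have q5 := a.h 5
  have q6 := a.hs
  simp only [Fin.sum_univ_six] at q0 q1 q2 q3 q4 q5 q6
  simp [E] at q0 q1 q2 q3 q4 q5
  refine ⟨by omega, by omega, by omega, by omega, by omega, by omega, by omega⟩

theorem St0.A (a : St0 u s w t) (h2 : w 1 < u 1) : t 0 = 0 := by
  by_contra h0
  obtain ⟨e1, e2, e3, e4, e5, e6, e7⟩ := a.e
  exact caseA e1 e2 e3 e4 e6 e7 (by have := a.z 0; omega) (a.z 1) (a.z 2) (a.z 3) (a.z 4) (a.z 5)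
    h2 (by omega)
    (fun hi hj => by
      by_contra hc
      exact a.m 2 0 hi hj (fun v => by fin_cases v <;> simp [E] <;> omega))
    (fun hi hj => by
      by_contra hc
      exact a.m 5 0 hi hj (fun v => by fin_cases v <;> simp [E] <;> omega))
    (fun hi hj => by
      by_contra hc
      exact a.m 3 0 hi hj (fun v => by fin_cases v <;> simp [E] <;> omega))
    (fun hi hj => by
      by_contra hc
      exact a.m 1 3 hi hj (fun v => by fin_cases v <;> simp [E] <;> omega))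
    (fun hi hj => by
      by_contra hc
      exact a.m 4 3 hi hj (fun v => by fin_cases v <;> simp [E] <;> omega))
    (fun hi hj => by
      by_contra hc
      exact a.m 1 2 hi hj (fun v => by fin_cases v <;> simp [E] <;> omega))
    (fun hi hj => by
      by_contra hc
      exact a.m 4 2 hi hj (fun v => by fin_cases v <;> simp [E] <;> omega))
    (fun hi hj => by
      by_contra hc
      exact a.m 1 5 hi hj (fun v => by fin_cases v <;> simp [E] <;> omega))
    (fun hi hj => by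
      by_contra hc
      exact a.n 5 1 hi hj (fun v => by fin_cases v <;> simp [E] <;> omega))
    (fun hi hj => by
      by_contra hc
      exact a.m 4 5 hi hj (fun v => by fin_cases v <;> simp [E] <;> omega))
    (fun hi hj => by
      by_contra hc
      exact a.m 1 0 hi hj (fun v => by fin_cases v <;> simp [E] <;> omega))
    (fun hi hj => by
      by_contra hc
      exact a.m 4 0 hi hj (fun v => by fin_cases v <;> simp [E] <;> omega))
    e5

theorem St0.B (a : St0 u s w t) (a0 : s 0 = 0) (a0' : t 0 = 0) (d0 : s 3 = 0) (d0' : t 3 = 0) :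
    t 2 = 0 := by
  obtain ⟨e1, e2, e3, e4, e5, e6, e7⟩ := a.e
  exact caseB e1 e3 e4 e7 a0 a0' d0 d0' (a.z 1) (a.z 2) (a.z 4) (a.z 5)
    (fun hi hj => by
      by_contra hc
      exact a.m 5 2 hi hj (fun v => by fin_cases v <;> simp [E] <;> omega))
    (fun hi hj => by
      by_contra hc
      exact a.m 1 2 hi hj (fun v => by fin_cases v <;> simp [E] <;> omega))
    (fun hi hj => by
      by_contra hc
      exact a.m 4 2 hi hj (fun v => by fin_cases v <;> simp [E] <;> omega))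

theorem St0.B' (a : St0 u s w t) (a0 : s 0 = 0) (a0' : t 0 = 0) (d0 : s 3 = 0) (d0' : t 3 = 0)
    (b0 : s 1 = 0) (b0' : t 1 = 0) (c0 : s 2 = 0) (c0' : t 2 = 0) : s 4 = 0 := by
  obtain ⟨e1, e2, e3, e4, e5, e6, e7⟩ := a.e
  exact caseB' e1 e4 e7 a0 a0' d0 d0' b0 b0' c0 c0' (a.z 4) (a.z 5)
    (fun hi hj => by
      by_contra hc
      exact a.m 4 5 hi hj (fun v => by fin_cases v <;> simp [E] <;> omega))

theorem St.C (a : St u s w t) (h2 : w 1 = u 1) : t 0 = 0 := by
  by_contra h0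
  obtain ⟨e1, e2, e3, e4, e5, e6, e7⟩ := a.to0.e
  have hz0 := a.z 0
  have hz3 := a.z 3
  exact caseC e1 e2 e3 e4 e7 (by omega) (by omega) h2 (by omega) (a.z 1) (a.z 2) (a.z 4) (a.z 5)
    (fun hi hj => by
      by_contra hc
      exact a.m 3 0 hi hj (fun v => by fin_cases v <;> simp [E] <;> omega))
    (fun hi hj => by
      by_contra hc
      exact a.m 5 2 hi hj (fun v => by fin_cases v <;> simp [E] <;> omega))
    (fun hi hj => by
      by_contra hc
      exact a.n 4 1 hi hj (fun v => by fin_cases v <;> simp [E] <;> omega))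
    (fun hi hj => by
      by_contra hc
      exact a.n 5 2 hi hj (fun v => by fin_cases v <;> simp [E] <;> omega))
    (fun hi hj => by
      by_contra hc
      exact a.m 4 1 hi hj (fun v => by fin_cases v <;> simp [E] <;> omega))
    a.k1 a.l2 a.k3

theorem St.zero (a : St u s w t) : ∑ i, s i = 0 := by
  obtain ⟨e1, e2, e3, e4, e5, e6, e7⟩ := a.to0.e
  have z0 := a.z 0
  have z3 := a.z 3
  have h1 : ¬ w 1 < u 1 := by
    intro h
    have h1 : t 0 = 0 := a.to0.A h
    have h2 : t 3 = 0 := a.to0.sig.A h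
    omega
  have h2 : ¬ u 1 < w 1 := by
    intro h
    have h1 : s 0 = 0 := a.to0.swap.A h
    have h2 : s 3 = 0 := a.to0.swap.sig.A h
    omega
  have h3 : t 0 = 0 := a.C (by omega)
  have h4 : s 0 = 0 := a.swap.C (by omega)
  have h5 : s 3 = 0 := by omega
  have h6 : t 3 = 0 := by omega
  have h7 : t 2 = 0 := a.to0.B h4 h3 h5 h6
  have h8 : s 2 = 0 := a.to0.swap.B h3 h4 h6 h5
  have h9 : t 1 = 0 := a.to0.sig.B h5 h6 h4 h3
  have h10 : s 1 = 0 := a.to0.swap.sig.B h6 h5 h3 h4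
  have h11 : s 4 = 0 := a.to0.B' h4 h3 h5 h6 h10 h9 h8 h7
  have h12 : t 4 = 0 := a.to0.swap.B' h3 h4 h6 h5 h9 h10 h7 h8
  have z5 := a.z 5
  rw [Fin.sum_univ_six]
  omega

theorem bin (d : ℕ) : Bin K d := by
  induction d with
  | zero =>
    intro u α w β hα hβ h
    have h1 : α = 0 := by
      funext i
      exact (Finset.sum_eq_zero_iff.mp hα) i (Finset.mem_univ _)
    have h2 : β = 0 := by
      funext i
      exact (Finset.sum_eq_zero_iff.mp hβ) i (Finset.mem_univ _)
    subst h1 h2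
    have h3 : u = w := by
      funext v
      simpa using h v
    rw [h3, sub_self]
    exact zero_mem _
  | succ d ih =>
    intro u α w β hα hβ h
    by_contra hne
    have hne' : mon K w β - mon K u α ∉ II K := fun h' => hne (symm' h')
    have h' : ∀ v, w v + ∑ i, β i * E i v = u v + ∑ i, α i * E i v := fun v => (h v).symm
    have hst : St u α w β := by
      refine ⟨h, hα.trans hβ.symm, fun i => ?_, fun i j hi hj hu => ?_, fun i j hi hj hu => ?_,
        fun a b => ?_, fun a b => ?_, fun a b c => ?_, fun a b => ?_, fun a b => ?_,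
        fun a b c => ?_⟩
      · by_contra hc
        exact hne (share ih hα hβ h i (by omega) (by omega))
      · exact hne (move ih hα hβ h i j hi hj hu)
      · exact hne' (move ih hβ hα h' i j hi hj hu)
      · by_contra hc
        exact hne (move_h1 ih hα hβ h a b (by omega))
      · by_contra hc
        exact hne (move_h2 ih hα hβ h a b (by omega))
      · by_contra hc
        exact hne (move_h3 ih hα hβ h a b c (by omega))
      · by_contra hc
        exact hne' (move_h1 ih hβ hα h' a b (by omega))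
      · by_contra hc
        exact hne' (move_h2 ih hβ hα h' a b (by omega))
      · by_contra hc
        exact hne' (move_h3 ih hβ hα h' a b c (by omega))
    have := hst.zero
    omega

end Q52.Fib
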