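import Mathlib
import Pool.Agent.Q52.Fib.Main

set_option autoImplicit false

/-!
# The kernel of the Rees map
-/

namespace Q52.Fib

open MvPolynomial Q52.Cond

variable {K : Type*} [Field K]

/-- The class of a monomial of degree `d` in the `y` which maps to `x ^ M t ^ d`. -/
noncomputable def rep (K : Type*) [Field K] (d : ℕ) (M : Fin 6 →₀ ℕ) :
    MvPolynomial (Fin 6) (MvPolynomial (Fin 6) K) ⧸ II K := by
  classical
  exact if h : ∃ p : (Fin 6 → ℕ) × (Fin 6 → ℕ), ∑ i, p.2 i = d ∧
      ∀ v, p.1 v + ∑ i, p.2 i * E i v = M v then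
    Ideal.Quotient.mk _ (mon K h.choose.1 h.choose.2) else 0

theorem rep_eq (u α : Fin 6 → ℕ) (M : Fin 6 →₀ ℕ) (h : ∀ v, u v + ∑ i, α i * E i v = M v) :
    rep K (∑ i, α i) M = Ideal.Quotient.mk _ (mon K u α) := by
  have hex : ∃ p : (Fin 6 → ℕ) × (Fin 6 → ℕ), ∑ i, p.2 i = ∑ i, α i ∧
      ∀ v, p.1 v + ∑ i, p.2 i * E i v = M v := ⟨(u, α), rfl, h⟩
  rw [rep, dif_pos hex, Ideal.Quotient.eq]
  exact bin _ _ _ _ _ hex.choose_spec.1 rfl fun v => (hex.choose_spec.2 v).trans (h v).symm

/-- The linear map which sends `x ^ M t ^ d` to the class of a monomial which maps to it. -/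
noncomputable def rho (K : Type*) [Field K] : Polynomial (MvPolynomial (Fin 6) K) →ₗ[K]
    MvPolynomial (Fin 6) (MvPolynomial (Fin 6) K) ⧸ II K :=
  Polynomial.lsum fun d => (basisMonomials (Fin 6) K).constr K (rep K d)

theorem rho_mon (d : ℕ) (M : Fin 6 →₀ ℕ) (c : K) :
    rho K (Polynomial.C (monomial M c) * Polynomial.X ^ d) = c • rep K d M := by
  have h1 : (monomial M c : MvPolynomial (Fin 6) K) = c • basisMonomials (Fin 6) K M := by
    rw [coe_basisMonomials, smul_monomial, smul_eq_mul, mul_one]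
  rw [rho, Polynomial.C_mul_X_pow_eq_monomial, Polynomial.lsum_apply,
    Polynomial.sum_monomial_index _ _ (by simp), h1, map_smul, Module.Basis.constr_basis]

theorem xm_eq (u : Fin 6 → ℕ) : xm K u = monomial (Finsupp.equivFunOnFinite.symm u) 1 := by
  rw [monomial_eq, C_1, one_mul, Finsupp.prod_fintype _ _ (by simp)]
  rfl

theorem ym_eq (u : Fin 6 → ℕ) : ym K u = monomial (Finsupp.equivFunOnFinite.symm u) 1 := by
  rw [monomial_eq, C_1, one_mul, Finsupp.prod_fintype _ _ (by simp)]
  rfl

theorem xm_sum (α : Fin 6 → ℕ) : ∏ i, gen K i ^ α i = xm K (fun v => ∑ i, α i * E i v) := by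
  simp only [gen_eq, xm, ← Finset.prod_pow, ← pow_mul]
  rw [Finset.prod_comm]
  refine Finset.prod_congr rfl fun v _ => ?_
  rw [Finset.prod_pow_eq_pow_sum]
  refine congrArg _ (Finset.sum_congr rfl fun i _ => mul_comm _ _)

theorem rees_mon (u α : Fin 6 → ℕ) : reesMap (gen K) (mon K u α) =
    Polynomial.C (xm K (fun v => u v + ∑ i, α i * E i v)) * Polynomial.X ^ (∑ i, α i) := by
  have h1 : reesMap (gen K) (ym K α) =
      Polynomial.C (∏ i, gen K i ^ α i) * Polynomial.X ^ (∑ i, α i) := by
    simp only [ym, map_prod, map_pow, reesMap, aeval_X, mul_pow, Finset.prod_mul_distrib,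
      Finset.prod_pow_eq_pow_sum]
  have h2 : reesMap (gen K) (C (xm K u)) = Polynomial.C (xm K u) := by
    simp [reesMap]
  rw [mon, map_mul, h1, h2, xm_sum, ← mul_assoc, ← Polynomial.C_mul, ← xm_add]
  rfl

theorem rho_rees (F : MvPolynomial (Fin 6) (MvPolynomial (Fin 6) K)) :
    rho K (reesMap (gen K) F) = Ideal.Quotient.mk (II K) F := by
  induction F using MvPolynomial.induction_on' with
  | monomial α r =>
    induction r using MvPolynomial.induction_on' with
    | monomial u c =>
      have h1 : (monomial α (monomial u c : MvPolynomial (Fin 6) K)) = c • mon K u α := by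
        have h2 : (monomial α (1 : MvPolynomial (Fin 6) K)) = ym K α := by
          rw [ym_eq, Finsupp.equivFunOnFinite_symm_coe]
        have h3 : (monomial u c : MvPolynomial (Fin 6) K) = c • xm K u := by
          rw [xm_eq, smul_monomial, smul_eq_mul, mul_one, Finsupp.equivFunOnFinite_symm_coe]
        rw [mon, ← h2, C_mul_monomial, mul_one, h3, smul_monomial]
      have h4 : reesMap (gen K) (c • mon K u α) = c • reesMap (gen K) (mon K u α) :=
        (reesMap (gen K)).toLinearMap.map_smul_of_tower c _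
      have h5 := rho_mon (K := K) (∑ i, α i)
        (Finsupp.equivFunOnFinite.symm fun v => u v + ∑ i, α i * E i v) 1
      rw [← xm_eq, one_smul, rep_eq u α _ (fun v => rfl)] at h5
      rw [h1, h4, map_smul, rees_mon, h5]
      rfl
    | add p q hp hq =>
      simp only [map_add, hp, hq]
  | add p q hp hq =>
    simp only [map_add, hp, hq]

theorem ker_le : RingHom.ker (reesMap (gen K)) ≤ II K := by
  intro F hF
  have h := rho_rees (K := K) F
  rw [RingHom.mem_ker] at hF
  rw [hF, map_zero] at h
  exact Ideal.Quotient.eq_zero_iff_mem.mp h.symm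

theorem rees_hh : reesMap (gen K) (hh K) = 0 := by
  simp only [hh, reesMap, map_sub, map_mul, aeval_X, gen]
  simp
  ring

theorem linear_le_ker {n m : ℕ} (f : Fin m → MvPolynomial (Fin n) K) :
    linearIdeal f ≤ RingHom.ker (reesMap f) := by
  rw [linearIdeal, Ideal.span_le]
  rintro l ⟨a, ha, rfl⟩
  rw [SetLike.mem_coe, RingHom.mem_ker, map_sum]
  have h1 : ∀ i, reesMap f (C (a i) * X i) = Polynomial.C (a i * f i) * Polynomial.X := by
    intro i
    simp [reesMap, mul_assoc]
  simp only [h1, ← Finset.sum_mul, ← map_sum, ha, map_zero, zero_mul]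

theorem isFiberType : IsFiberType (gen K) := by
  apply le_antisymm
  · refine ker_le.trans (sup_le_sup_left ?_ _)
    rw [Ideal.span_le, Set.singleton_subset_iff, SetLike.mem_coe]
    have h1 : hh K = MvPolynomial.map (C : K →+* MvPolynomial (Fin 6) K)
        (X 0 * X 1 - X 2 * X 3) := by
      simp [hh]
    rw [h1]
    refine Ideal.mem_map_of_mem _ ?_
    rw [RingHom.mem_ker]
    simp only [fiberMap, map_sub, map_mul, aeval_X, gen]
    simp
    ring
  · refine sup_le (linear_le_ker _) ?_
    rw [Ideal.map_le_iff_le_comap]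
    intro F hF
    rw [RingHom.mem_ker] at hF
    rw [Ideal.mem_comap, RingHom.mem_ker, ← hF]
    simp only [reesMap, fiberMap, aeval_def]
    rw [eval₂_map]
    rfl

end Q52.Fib
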