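import Mathlib
import Pool.Agent.Q52.Fib.Ker

set_option autoImplicit false

/-!
# The element `x₆ ^ 2` lies in the conductor, but `x₆` does not
-/

namespace Q52.Fib

open MvPolynomial Q52.Cond

variable {K : Type*} [Field K]

theorem l1 : C (X 5) * X 1 - C (X 3) * X 4 ∈ linearIdeal (gen K) := by
  have h := linear_mem (K := K) (u := ![0, 0, 0, 0, 0, 1]) (u' := ![0, 0, 0, 1, 0, 0]) (i := 1)
    (j := 4) (by decide)
  simpa [xm, Fin.prod_univ_six] using h

theorem l2 : C (X 3 * X 5) * X 0 - C (X 1) * X 5 ∈ linearIdeal (gen K) := by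
  have h := linear_mem (K := K) (u := ![0, 0, 0, 1, 0, 1]) (u' := ![0, 1, 0, 0, 0, 0]) (i := 0)
    (j := 5) (by decide)
  simpa [xm, Fin.prod_univ_six] using h

theorem l3 : C (X 1) * X 4 - C (X 2 * X 5) * X 3 ∈ linearIdeal (gen K) := by
  have h := linear_mem (K := K) (u := ![0, 1, 0, 0, 0, 0]) (u' := ![0, 0, 1, 0, 0, 1]) (i := 4)
    (j := 3) (by decide)
  simpa [xm, Fin.prod_univ_six] using h

theorem l4 : C (X 2) * X 5 - C (X 5) * X 2 ∈ linearIdeal (gen K) := by
  have h := linear_mem (K := K) (u := ![0, 0, 1, 0, 0, 0]) (u' := ![0, 0, 0, 0, 0, 1]) (i := 5)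
    (j := 2) (by decide)
  simpa [xm, Fin.prod_univ_six] using h

theorem sq_hh : C (X 5 ^ 2) * hh K ∈ linearIdeal (gen K) := by
  have h : C (X 5 ^ 2) * hh K = C (X 5) * X 0 * (C (X 5) * X 1 - C (X 3) * X 4) +
      X 4 * (C (X 3 * X 5) * X 0 - C (X 1) * X 5) + X 5 * (C (X 1) * X 4 - C (X 2 * X 5) * X 3) +
      C (X 5) * X 3 * (C (X 2) * X 5 - C (X 5) * X 2) := by
    simp only [hh, C_mul, C_pow]
    ring
  rw [h]
  exact add_mem (add_mem (add_mem (Ideal.mul_mem_left _ _ l1) (Ideal.mul_mem_left _ _ l2))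
    (Ideal.mul_mem_left _ _ l3)) (Ideal.mul_mem_left _ _ l4)

theorem sq_mem : X 5 ^ 2 ∈ conductor (gen K) := by
  rw [mem_conductor]
  intro F hF
  have h1 : F ∈ II K := ker_le hF
  obtain ⟨l, hl, g, hg, rfl⟩ := Submodule.mem_sup.mp h1
  obtain ⟨a, rfl⟩ := Ideal.mem_span_singleton'.mp hg
  rw [mul_add, mul_left_comm]
  exact add_mem (Ideal.mul_mem_left _ _ hl) (Ideal.mul_mem_left _ _ sq_hh)

theorem coeff_syz {a : Fin 6 → MvPolynomial (Fin 6) K} (h : ∑ i, a i * gen K i = 0)
    (M : Fin 6 → ℕ) : ∑ i, (if ∀ v, E i v ≤ M v then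
      coeff (Finsupp.equivFunOnFinite.symm (fun v => M v - E i v)) (a i) else 0) = 0 := by
  have h1 := congrArg (coeff (Finsupp.equivFunOnFinite.symm M)) h
  rw [coeff_sum, coeff_zero] at h1
  rw [← h1]
  refine Finset.sum_congr rfl fun i _ => ?_
  rw [gen_eq, xm_eq, coeff_mul_monomial', mul_one]
  have h2 : Finsupp.equivFunOnFinite.symm M - Finsupp.equivFunOnFinite.symm (E i) =
      Finsupp.equivFunOnFinite.symm (fun v => M v - E i v) := by
    ext v; simp
  rw [h2]
  congr 1

theorem coeff_lin (i : Fin 6) (p q : MvPolynomial (Fin 6) K) :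
    coeff (Finsupp.single i 1) (p * q) =
      coeff (Finsupp.single i 1) p * coeff 0 q + coeff 0 p * coeff (Finsupp.single i 1) q := by
  rw [coeff_mul, Finsupp.antidiagonal_single]
  simp [Finset.Nat.antidiagonal_succ]
  ring

theorem symm_zero : Finsupp.equivFunOnFinite.symm (0 : Fin 6 → ℕ) = 0 := by
  ext; simp

theorem symm_single (i : Fin 6) :
    Finsupp.equivFunOnFinite.symm (Pi.single i 1 : Fin 6 → ℕ) = Finsupp.single i 1 := by
  ext v; simp

section

variable {a : Fin 6 → MvPolynomial (Fin 6) K} (h : ∑ i, a i * gen K i = 0)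
include h

theorem s0 : coeff 0 (a 0) = 0 := by
  have h1 := coeff_syz h ![1, 1, 0, 0, 0, 0]
  rw [Fin.sum_univ_six, if_pos (by decide), if_neg (by decide), if_neg (by decide),
    if_neg (by decide), if_neg (by decide), if_neg (by decide),
    show (fun v => ![1, 1, 0, 0, 0, 0] v - E 0 v) = (0 : Fin 6 → ℕ) by decide, symm_zero] at h1
  simpa using h1

theorem s1 : coeff 0 (a 1) = 0 := by
  have h1 := coeff_syz h ![0, 0, 1, 1, 1, 0]
  rw [Fin.sum_univ_six, if_neg (by decide), if_pos (by decide), if_neg (by decide),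
    if_neg (by decide), if_neg (by decide), if_neg (by decide),
    show (fun v => ![0, 0, 1, 1, 1, 0] v - E 1 v) = (0 : Fin 6 → ℕ) by decide, symm_zero] at h1
  simpa using h1

theorem s4 : coeff 0 (a 4) = 0 := by
  have h1 := coeff_syz h ![0, 0, 1, 0, 1, 1]
  rw [Fin.sum_univ_six, if_neg (by decide), if_neg (by decide), if_neg (by decide),
    if_neg (by decide), if_pos (by decide), if_neg (by decide),
    show (fun v => ![0, 0, 1, 0, 1, 1] v - E 4 v) = (0 : Fin 6 → ℕ) by decide, symm_zero] at h1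
  simpa using h1

theorem s05 : coeff (Finsupp.single 5 1) (a 0) = 0 := by
  have h1 := coeff_syz h ![1, 1, 0, 0, 0, 1]
  rw [Fin.sum_univ_six, if_pos (by decide), if_neg (by decide), if_neg (by decide),
    if_neg (by decide), if_neg (by decide), if_neg (by decide),
    show (fun v => ![1, 1, 0, 0, 0, 1] v - E 0 v) = (Pi.single 5 1 : Fin 6 → ℕ) by decide,
    symm_single] at h1
  simpa using h1

theorem s03 : coeff (Finsupp.single 3 1) (a 0) = 0 := by
  have h1 := coeff_syz h ![1, 1, 0, 1, 0, 0]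
  rw [Fin.sum_univ_six, if_pos (by decide), if_neg (by decide), if_neg (by decide),
    if_neg (by decide), if_neg (by decide), if_neg (by decide),
    show (fun v => ![1, 1, 0, 1, 0, 0] v - E 0 v) = (Pi.single 3 1 : Fin 6 → ℕ) by decide,
    symm_single] at h1
  simpa using h1

theorem s14 : coeff (Finsupp.single 5 1) (a 1) + coeff (Finsupp.single 3 1) (a 4) = 0 := by
  have h1 := coeff_syz h ![0, 0, 1, 1, 1, 1]
  rw [Fin.sum_univ_six, if_neg (by decide), if_pos (by decide), if_neg (by decide),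
    if_neg (by decide), if_pos (by decide), if_neg (by decide),
    show (fun v => ![0, 0, 1, 1, 1, 1] v - E 1 v) = (Pi.single 5 1 : Fin 6 → ℕ) by decide,
    show (fun v => ![0, 0, 1, 1, 1, 1] v - E 4 v) = (Pi.single 3 1 : Fin 6 → ℕ) by decide,
    symm_single, symm_single] at h1
  simpa using h1

end

/-- The functional which detects the component of `x₆ y_a y_b`. -/
noncomputable def ell (K : Type*) [Field K] :
    MvPolynomial (Fin 6) (MvPolynomial (Fin 6) K) →+ K where
  toFun F := coeff (Finsupp.single 5 1) (coeff (Finsupp.single 0 1 + Finsupp.single 1 1) F) +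
    coeff (Finsupp.single 3 1) (coeff (Finsupp.single 0 1 + Finsupp.single 4 1) F)
  map_zero' := by simp
  map_add' F G := by simp only [coeff_add]; ring

theorem ell_apply (F : MvPolynomial (Fin 6) (MvPolynomial (Fin 6) K)) : ell K F =
    coeff (Finsupp.single 5 1) (coeff (Finsupp.single 0 1 + Finsupp.single 1 1) F) +
    coeff (Finsupp.single 3 1) (coeff (Finsupp.single 0 1 + Finsupp.single 4 1) F) := rfl

theorem coeff_two (i j k : Fin 6) (hij : i ≠ j) (t : MvPolynomial (Fin 6) (MvPolynomial (Fin 6) K))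
    (c : MvPolynomial (Fin 6) K) :
    coeff (Finsupp.single i 1 + Finsupp.single j 1) (t * (C c * X k)) =
      (if k = i then c * coeff (Finsupp.single j 1) t else 0) +
      (if k = j then c * coeff (Finsupp.single i 1) t else 0) := by
  have h0 : t * (C c * X k) = C c * (t * X k) := by ring
  rw [h0, coeff_C_mul]
  by_cases h1 : k = i
  · subst h1
    rw [add_comm, coeff_mul_X, if_pos rfl, if_neg hij, add_zero]
  · by_cases h2 : k = j
    · subst h2
      rw [coeff_mul_X, if_pos rfl, if_neg h1, zero_add]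
    · rw [coeff_mul_X', if_neg, if_neg h1, if_neg h2]
      · simp
      · simp [Ne.symm h1, Ne.symm h2]

theorem ell_gen {a : Fin 6 → MvPolynomial (Fin 6) K} (h : ∑ i, a i * gen K i = 0)
    (t : MvPolynomial (Fin 6) (MvPolynomial (Fin 6) K)) :
    ell K (t * ∑ i, C (a i) * X i) = 0 := by
  have h1 : ∀ i j : Fin 6, i ≠ j →
      coeff (Finsupp.single i 1 + Finsupp.single j 1) (t * ∑ k, C (a k) * X k) =
      a i * coeff (Finsupp.single j 1) t + a j * coeff (Finsupp.single i 1) t := by
    intro i j hij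
    rw [Finset.mul_sum, coeff_sum]
    simp only [coeff_two i j _ hij, Finset.sum_add_distrib]
    rw [Finset.sum_ite_eq' Finset.univ i, Finset.sum_ite_eq' Finset.univ j]
    simp
  rw [ell_apply, h1 0 1 (by decide), h1 0 4 (by decide)]
  simp only [coeff_add, coeff_lin]
  rw [s0 h, s1 h, s4 h, s05 h, s03 h]
  linear_combination (coeff 0 (coeff (Finsupp.single 0 1) t)) * s14 h

theorem ell_linear {F : MvPolynomial (Fin 6) (MvPolynomial (Fin 6) K)}
    (hF : F ∈ linearIdeal (gen K)) : ∀ t, ell K (t * F) = 0 := by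
  refine Submodule.span_induction ?_ ?_ ?_ ?_ hF
  · rintro l ⟨a, ha, rfl⟩ t
    exact ell_gen ha t
  · intro t
    simp
  · intro x y _ _ hx hy t
    rw [mul_add, map_add, hx, hy, add_zero]
  · intro s x _ hx t
    rw [smul_eq_mul, ← mul_assoc]
    exact hx _

theorem notMem : X 5 ∉ conductor (gen K) := by
  intro h
  have h1 := ell_linear (mem_conductor.mp h (hh K) rees_hh) 1
  rw [one_mul, ell_apply] at h1
  have h3 : (C (X 5) * hh K : MvPolynomial (Fin 6) (MvPolynomial (Fin 6) K)) =
      X 0 * (C (X 5) * X 1) - X 2 * (C (X 5) * X 3) := by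
    rw [hh]; ring
  rw [h3] at h1
  simp only [coeff_sub, coeff_two 0 1 _ (by decide), coeff_two 0 4 _ (by decide)] at h1
  simp [coeff_X] at h1

theorem not_squarefree : ¬ IsSquarefreeMonomialIdeal (conductor (gen K)) := by
  rintro ⟨S, hS⟩
  by_cases h : ∃ s ∈ S, s ⊆ {5}
  · obtain ⟨s, hs, hs'⟩ := h
    have h1 : (∏ i ∈ s, X i : MvPolynomial (Fin 6) K) ∈ conductor (gen K) := by
      rw [hS]
      exact Ideal.subset_span ⟨s, hs, rfl⟩
    apply notMem (K := K)
    rcases Finset.subset_singleton_iff.mp hs' with rfl | rfl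
    · have h2 := Ideal.mul_mem_left _ (X 5) h1
      simpa using h2
    · simpa using h1
  · have h1 : conductor (gen K) ≤
        RingHom.ker (aeval (Pi.single 5 1) : MvPolynomial (Fin 6) K →ₐ[K] K) := by
      rw [hS, Ideal.span_le]
      rintro _ ⟨s, hs, rfl⟩
      rw [SetLike.mem_coe, RingHom.mem_ker]
      have h2 : ¬ s ⊆ {5} := fun h' => h ⟨s, hs, h'⟩
      rw [Finset.subset_singleton_iff'] at h2
      push Not at h2
      obtain ⟨i, hi, hi'⟩ := h2
      simp only [map_prod, aeval_X]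
      exact Finset.prod_eq_zero hi (by simp [hi'])
    have h2 := h1 (sq_mem (K := K))
    rw [RingHom.mem_ker] at h2
    simp at h2

end Q52.Fib
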